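import Mathlib
import Pool.Agent.Lib.MP_fe99c3_gt.CliqueCl

/-!
# First countable almost discretely Lindelof spaces: closures of small discrete cliques

Let kappa be the least cardinal with `2 ^ kappa > 𝔠`. If closures of discrete cliques of size less
than kappa have Lindelof number at most kappa, then the space has at most continuum many points.
-/

universe u

namespace Pool.Agent.Results.MP_fe99c3_gt.DiscreteCliques

open Set Filter Topology Cardinal MP_fe99c3_gt.TD

/-- Let `X` be a first countable almost discretely Lindelof Hausdorff space. Suppose that for each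
discrete clique `D` with `2 ^ |D| ≤ 𝔠`, each family of open sets covering the closure of `D` has a
subfamily `𝒱` covering it with `2 ^ d ≤ 𝔠` for all cardinals `d < |𝒱|`. Then `|X| ≤ 𝔠`. -/
theorem result {X : Type u} [TopologicalSpace X] [T2Space X] [FirstCountableTopology X]
    (hX : AlmostDiscretelyLindelof X)
    (hL : ∀ D : Set X, DiscreteTopology D → Clique D → (2 : Cardinal.{u}) ^ #D ≤ 𝔠 →
      ∀ 𝒰 : Set (Set X), (∀ U ∈ 𝒰, IsOpen U) → closure D ⊆ ⋃₀ 𝒰 →
        ∃ 𝒱 ⊆ 𝒰, (∀ d < #𝒱, (2 : Cardinal.{u}) ^ d ≤ 𝔠) ∧ closure D ⊆ ⋃₀ 𝒱) :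
    #X ≤ 𝔠 :=
  le_of_discrete_cliques hX hL

end Pool.Agent.Results.MP_fe99c3_gt.DiscreteCliques
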