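import Mathlib
import Pool.Agent.Lib.MP_fe99c3_gt.Master
import Pool.Agent.Lib.MP_fe99c3_gt.Frame

/-!
# First countable almost discretely Lindelof spaces: the bound `|X| ≤ 2 ^< 𝔠`
-/

universe u

namespace Pool.Agent.Results.MP_fe99c3_gt.GeneralBound

open Set Filter Topology Cardinal MP_fe99c3_gt.TD

/-- Each first countable almost discretely Lindelof Hausdorff space `X` satisfies `|X| ≤ 2 ^< 𝔠`,
the supremum of the cardinals `2 ^ c` for `c < 𝔠`. -/
theorem result {X : Type u} [TopologicalSpace X] [T2Space X] [FirstCountableTopology X]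
    (hX : AlmostDiscretelyLindelof X) : #X ≤ 2 ^< 𝔠 := by
  classical
  have hcof : ℵ₀ < (𝔠 : Cardinal.{0}).ord.cof := by
    rw [← two_power_aleph0]
    exact lt_cof_ord_power le_rfl one_lt_two
  obtain ⟨J, I, _, _, ℓ, _, hI, hJ, hJseg, hC, hbd⟩ := exists_frame 𝔠 hcof
  have hb : ∀ x : X, ∃ B : ℕ → Set X, (∀ n, IsOpen (B n) ∧ x ∈ B n) ∧
      ∀ U ∈ 𝓝 x, ∃ n, B n ⊆ U := by
    intro x
    obtain ⟨B, hB⟩ := (nhds_basis_opens x).exists_antitone_subbasis
    refine ⟨B, fun n => ⟨(hB.1 n).2, (hB.1 n).1⟩, fun U hU => ?_⟩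
    obtain ⟨n, -, hn⟩ := hB.2.toHasBasis.mem_iff.1 hU
    exact ⟨n, hn⟩
  choose B hB1 hB2 using hb
  -- enumeration of basic sets of points of a closure
  have hΦ : ∀ S : Set X, ∃ Ψ : ℝ → Set X, (∀ r, IsOpen (Ψ r)) ∧ (#S ≤ 𝔠 →
      (∃ r, Ψ r = ∅) ∧ ∀ y ∈ closure S, ∀ n, ∃ r, Ψ r = B y n) := by
    intro S
    by_cases hS : #S ≤ 𝔠
    · let 𝒬 : Set (Set X) := insert ∅ (range (fun a : closure S × ℕ => B a.1 a.2))
      have h𝒬c : #𝒬 ≤ 𝔠 := by
        refine mk_insert_le.trans ?_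
        have h1 : #(range (fun a : closure S × ℕ => B a.1 a.2)) ≤ 𝔠 := by
          refine mk_range_le.trans ?_
          rw [mk_prod, mk_nat, lift_aleph0, lift_uzero]
          calc #(closure S) * ℵ₀ ≤ 𝔠 * 𝔠 := mul_le_mul' (mk_closure_le hS) aleph0_le_continuum
            _ = 𝔠 := continuum_mul_self
        calc #(range (fun a : closure S × ℕ => B a.1 a.2)) + 1 ≤ 𝔠 + 𝔠 :=
              add_le_add h1 (le_trans (le_of_lt one_lt_aleph0) aleph0_le_continuum)
          _ = 𝔠 := continuum_add_self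
      have : Nonempty 𝒬 := ⟨⟨∅, mem_insert _ _⟩⟩
      obtain ⟨g, hg⟩ := exists_surj_real h𝒬c
      refine ⟨fun r => (g r).1, ?_, fun _ => ⟨?_, ?_⟩⟩
      · intro r
        show IsOpen (g r).1
        rcases (g r).2 with h | ⟨a, ha⟩
        · rw [h]
          exact isOpen_empty
        · rw [← ha]
          exact (hB1 _ _).1
      · obtain ⟨r, hr⟩ := hg ⟨∅, mem_insert _ _⟩
        exact ⟨r, congrArg Subtype.val hr⟩
      · intro y hy n
        obtain ⟨r, hr⟩ := hg ⟨B y n, mem_insert_of_mem _ ⟨(⟨y, hy⟩, n), rfl⟩⟩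
        exact ⟨r, congrArg Subtype.val hr⟩
    · exact ⟨fun _ => ∅, fun _ => isOpen_empty, fun h => absurd h hS⟩
  choose Φ hΦo hΦ using hΦ
  have hpow : ∀ j : J, (2 ^< (𝔠 : Cardinal.{0})) ^ #(Iio j) ≤ 2 ^< 𝔠 := fun j =>
    powerlt_pow aleph0_le_continuum (hJseg j) ((hJseg j).trans_le (Ordinal.cof_ord_le _))
      aleph0_lt_continuum
  have hω : (2 ^< (𝔠 : Cardinal.{0})) ^ ℵ₀ ≤ 2 ^< 𝔠 :=
    powerlt_pow aleph0_le_continuum hcof aleph0_lt_continuum aleph0_lt_continuum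
  have hC' : ∀ j : J, (𝔠 : Cardinal.{0}) ^ #{ξ : I | ℓ ξ < j} ≤ 2 ^< 𝔠 := by
    intro j
    rw [← two_power_aleph0, ← power_mul, two_power_aleph0]
    exact le_powerlt 2 (mul_lt_of_lt aleph0_le_continuum aleph0_lt_continuum (hC j))
  obtain ⟨Y, hYc, hYcl, hY⟩ := mainLemma hX ℓ (2 ^< 𝔠) le_two_powerlt hω
    (hJ.trans le_two_powerlt) hpow hC' hbd Φ hΦo
  have hne : Nonempty I := by
    rw [← mk_ne_zero_iff, hI]
    exact continuum_ne_zero
  have huniv : ∀ p, p ∈ Y := by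
    intro p
    by_contra hp
    obtain ⟨S, hSY, hSd, -, hno⟩ := hY p hp
    have hpS : p ∉ closure S := fun h => hp ((hYcl.closure_subset_iff.2 hSY) h)
    have hSc : #S ≤ 𝔠 := mk_discrete_le hX hSd
    obtain ⟨⟨r₀, hr₀⟩, hr⟩ := hΦ S hSc
    refine hno ?_
    rcases isEmpty_or_nonempty (closure S) with hE | hN
    · refine ⟨fun _ => r₀, fun _ => by rw [hr₀]; exact notMem_empty p, ?_⟩
      intro y hy
      exact (hE.false ⟨y, hy⟩).elim
    · have h3 : lift.{0, u} #(closure S) ≤ lift.{u, 0} #I := by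
        rw [lift_uzero, hI, lift_continuum]
        exact mk_closure_le hSc
      obtain ⟨e⟩ := lift_mk_le'.mp h3
      have hsurj := Function.invFun_surjective e.injective
      have hn : ∀ y : closure S, ∃ r, p ∉ Φ S r ∧ (y : X) ∈ Φ S r := by
        intro y
        have hne : (y : X) ≠ p := fun h => hpS (h ▸ y.2)
        obtain ⟨n, hn⟩ := hB2 y {p}ᶜ (isOpen_compl_singleton.mem_nhds hne)
        obtain ⟨r, hr⟩ := hr y y.2 n
        exact ⟨r, by rw [hr]; exact fun h => hn h rfl, by rw [hr]; exact (hB1 _ _).2⟩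
      choose q hq1 hq2 using hn
      refine ⟨fun ξ => q (Function.invFun e ξ), fun ξ => hq1 _, ?_⟩
      intro y hy
      obtain ⟨ξ, hξ⟩ := hsurj ⟨y, hy⟩
      refine mem_iUnion.2 ⟨ξ, ?_⟩
      show y ∈ Φ S (q (Function.invFun e ξ))
      rw [hξ]
      exact hq2 ⟨y, hy⟩
  have : Y = Set.univ := eq_univ_of_forall huniv
  rw [← mk_univ, ← this]
  refine hYc.trans ?_
  refine lift_iSup_le (bddAbove_of_small) (fun c => ?_)
  rw [lift_two_power]
  refine le_powerlt 2 ?_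
  have hc := lift_lt.{0, u}.mpr c.2
  rwa [lift_continuum] at hc

end Pool.Agent.Results.MP_fe99c3_gt.GeneralBound
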