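import Mathlib
import Pool.Agent.Lib.MP_fe99c3_gt.ThetaLim

/-!
# First countable almost discretely Lindelof spaces: theta-limits of sequences
-/

universe u

namespace Pool.Agent.Results.MP_fe99c3_gt.ThetaLimits

open Set Filter Topology Cardinal MP_fe99c3_gt.TD

/-- For each cardinal `c ≥ 𝔠` and each first countable almost discretely Lindelof Hausdorff space
`X` the following are equivalent: `X` has at most `c` points; the theta-closure of each countable
closed discrete subset has at most `c` points; each injective sequence with closed discrete range
has at most `c` theta-limits; each closed clique has at most `c` points; for each closed clique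
`Y`, each injective sequence in `Y` with closed discrete range has at most `c` theta-limits in the
space `Y`. -/
theorem result {X : Type u} [TopologicalSpace X] [T2Space X] [FirstCountableTopology X]
    (hX : AlmostDiscretelyLindelof X) (c : Cardinal.{u}) (hc : 𝔠 ≤ c) :
    List.TFAE [
      #X ≤ c,
      ∀ E : Set X, E.Countable → IsClosed E → DiscreteTopology E → #(thetaClosure E) ≤ c,
      ∀ d : ℕ → X, Function.Injective d → IsClosed (range d) → DiscreteTopology (range d) →
        #(thetaLimits d) ≤ c,
      ∀ A : Set X, IsClosed A → Clique A → #A ≤ c,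
      ∀ Y : Set X, IsClosed Y → Clique Y → ∀ d : ℕ → Y, Function.Injective d →
        IsClosed (range d) → DiscreteTopology (range d) → #(thetaLimits d) ≤ c] := by
  tfae_have 1 → 2 := fun h E _ _ _ => (mk_set_le _).trans h
  tfae_have 2 → 1 := le_of_thetaClosure hX c hc
  tfae_have 1 → 4 := fun h A _ _ => (mk_set_le _).trans h
  tfae_have 4 → 3 := fun h d _ _ _ => h _ (isClosed_thetaLimits d) (clique_thetaLimits d)
  tfae_have 3 → 1 := by
    intro h
    refine le_of_thetaClosure hX c hc fun E hEc hEcl hEd => ?_
    by_contra hbig
    obtain ⟨d, hd1, hd2, hd3, hd4⟩ := exists_thetaLimits hc hEc hEcl hEd (not_le.1 hbig)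
    exact absurd (h d hd1 hd2 hd3) (not_le.2 hd4)
  tfae_have 1 → 5 := fun h Y _ _ d _ _ _ => (mk_set_le _).trans ((mk_set_le _).trans h)
  tfae_have 5 → 1 := le_of_thetaLimits hX c hc
  tfae_finish

end Pool.Agent.Results.MP_fe99c3_gt.ThetaLimits
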